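import Mathlib
import Pool.Agent.H925R3.DC.Stubs

/-! Bombieri-Vinogradov lower bound (task PRMS of helper925, by helper227). -/

set_option autoImplicit false

namespace Pool.Agent.H227DC

open Finset Filter Topology
open Pool.Agent.H925R3.DC Pool.Agent.H410R2

theorem prms_coprime (e : ℤ) (he : e = 1 ∨ e = -1) (n : ℕ) (hn : 0 < n) :
    (rr e n).Coprime n := by
  rcases he with rfl | rfl
  · have : rr 1 n = n - 1 := by simp [rr]
    rw [this]
    obtain ⟨k, rfl⟩ : ∃ k, n = k + 1 := ⟨n - 1, by omega⟩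
    simp
  · have : rr (-1) n = 1 := by simp [rr]
    rw [this]
    exact Nat.coprime_one_left n

theorem prms : Pool.Agent.H925R3.DC.PRMS := by
  intro hBV hPNT hPRMQ M hM e he δ hδ hδ'
  obtain ⟨X₁, h₁⟩ := hBV M hM 1 le_rfl δ hδ 2
  obtain ⟨X₃, h₃⟩ := hPRMQ δ hδ hδ'
  have h2 : ∀ᶠ X : ℝ in atTop, (1 / 2 : ℝ) < psiLog1 X / X :=
    hPNT.eventually (lt_mem_nhds (by norm_num))
  have h4 : ∀ᶠ X : ℝ in atTop, (16 * M : ℝ) ≤ Real.log X :=
    Real.tendsto_log_atTop.eventually (eventually_ge_atTop _)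
  have hall := (((eventually_ge_atTop X₁).and (eventually_ge_atTop X₃)).and
    (h2.and h4)).and (eventually_gt_atTop (0 : ℝ))
  obtain ⟨X₀, hX₀⟩ := eventually_atTop.mp hall
  refine ⟨X₀, fun X hX => ?_⟩
  obtain ⟨⟨⟨hX1, hX3⟩, hX2, hX4⟩, hXpos⟩ := hX₀ X hX
  have hM' : (0 : ℝ) < M := by exact_mod_cast hM
  have hlog : 0 < Real.log X := lt_of_lt_of_le (by positivity) hX4
  set y : ℝ := X ^ (1 / 2 - δ) with hy
  have hypos : 0 < y := Real.rpow_pos_of_pos hXpos _
  have hpsi : X / 2 ≤ psiLog1 X := by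
    rw [lt_div_iff₀ hXpos] at hX2
    linarith
  -- Bombieri-Vinogradov
  have hBV' := h₁ X hX1 (fun q => rr e (M * q))
  have hsub : QQ δ X ⊆ (Icc 1 ⌊X ^ (1 / 2 - δ)⌋₊).filter
      (fun q => Squarefree q ∧ (rr e (M * q)).Coprime (M * q)) := by
    intro q hq
    unfold QQ at hq
    rw [mem_filter] at hq ⊢
    refine ⟨hq.1, hq.2.1.prime.squarefree, prms_coprime e he _ ?_⟩
    exact Nat.mul_pos hM hq.2.1.pos
  have hsum : ∑ q ∈ QQ δ X,
      |psiLogAP X (M * q) (rr e (M * q)) - psiLog1 X / (Nat.totient (M * q) : ℝ)| ≤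
        X / (Real.log X) ^ 2 := by
    refine le_trans ?_ hBV'
    refine le_trans ?_ (sum_le_sum_of_subset_of_nonneg hsub ?_)
    · exact le_of_eq (sum_congr rfl fun q _ => by rw [one_pow, one_mul])
    · intro q _ _
      positivity
  have hterm : ∀ q ∈ QQ δ X, X / (2 * M * y) -
      |psiLogAP X (M * q) (rr e (M * q)) - psiLog1 X / (Nat.totient (M * q) : ℝ)| ≤
        psiLogAP X (M * q) (rr e (M * q)) := by
    intro q hq
    unfold QQ at hq
    rw [mem_filter, mem_Icc] at hq
    have hqpos : 0 < q := hq.1.1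
    have hqy : (q : ℝ) ≤ y := (Nat.le_floor_iff hypos.le).mp hq.1.2
    have htpos : 0 < Nat.totient (M * q) := Nat.totient_pos.mpr (Nat.mul_pos hM hqpos)
    have htpos' : (0 : ℝ) < Nat.totient (M * q) := by exact_mod_cast htpos
    have htle : (Nat.totient (M * q) : ℝ) ≤ M * y := by
      have h1 : (Nat.totient (M * q) : ℝ) ≤ (M * q : ℕ) := by
        exact_mod_cast Nat.totient_le (M * q)
      rw [Nat.cast_mul] at h1
      exact h1.trans (mul_le_mul_of_nonneg_left hqy hM'.le)
    have hmain : X / (2 * M * y) ≤ psiLog1 X / (Nat.totient (M * q) : ℝ) := by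
      have : X / (2 * M * y) = (X / 2) / (M * y) := by
        field_simp
      rw [this]
      exact div_le_div₀ (by linarith) hpsi htpos' htle
    have habs := neg_abs_le (psiLogAP X (M * q) (rr e (M * q)) -
      psiLog1 X / (Nat.totient (M * q) : ℝ))
    linarith
  have hfin := sum_le_sum hterm
  rw [sum_sub_distrib, sum_const, nsmul_eq_mul] at hfin
  have hcard := h₃ X hX3
  rw [← hy] at hcard
  have hA : X / (8 * M * Real.log X) ≤ ((QQ δ X).card : ℝ) * (X / (2 * M * y)) := by
    calc X / (8 * M * Real.log X) = y / (4 * Real.log X) * (X / (2 * M * y)) := by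
          field_simp
          ring
      _ ≤ _ := mul_le_mul_of_nonneg_right hcard (by positivity)
  have hB : X / (Real.log X) ^ 2 ≤ X / (16 * M * Real.log X) := by
    apply div_le_div_of_nonneg_left hXpos.le (by positivity)
    rw [sq]
    exact mul_le_mul_of_nonneg_right hX4 hlog.le
  have hC : X / (8 * M * Real.log X) = 2 * (X / (16 * M * Real.log X)) := by
    field_simp
    ring
  linarith

end Pool.Agent.H227DC
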